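import Pool.Agent.H54S.DataS
import Pool.Agent.H54S.Data12
import Pool.Agent.H54S.Data13
import Pool.Agent.H54S.Data14
import Pool.Agent.H54S.Data15

set_option autoImplicit false

namespace Pool.Agent.Results.MP_0ccee8_co.FiveForAllDimensions

open Pool.Agent.H54S

theorem base6 : ∀ m, 10 ≤ m → m ≤ 15 → Good (Fin m) 6 := by
  intro m h1 h2
  rcases (show m = 10 ∨ m = 11 ∨ m = 12 ∨ m = 13 ∨ m = 14 ∨ m = 15 by omega) with
    rfl | rfl | rfl | rfl | rfl | rfl
  · exact E10.good
  · exact E11.good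
  · exact D12.good.mono (by norm_num)
  · exact D13.good.mono (by norm_num)
  · exact D14.good.mono (by norm_num)
  · exact D15.good.mono (by norm_num)

theorem base5 : ∀ m, 8 ≤ m → m ≤ 15 → Good (Fin m) 5 := by
  intro m h1 h2
  rcases (show m = 8 ∨ m = 9 ∨ 10 ≤ m by omega) with rfl | rfl | h
  · exact E8.good
  · exact E9.good
  · exact (base6 m h h2).mono (by norm_num)

theorem small : ∀ n, 1 ≤ n → n < 8 → Good (Fin n) (min 5 (n / 2 + 1)) := by
  intro n h1 h2
  rcases (show n = 1 ∨ n = 2 ∨ n = 3 ∨ n = 4 ∨ n = 5 ∨ n = 6 ∨ n = 7 by omega) with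
    rfl | rfl | rfl | rfl | rfl | rfl | rfl
  · exact E1.good
  · exact E2.good
  · exact E3.good
  · exact E4.good
  · exact E5.good
  · exact E6.good
  · exact E7.good

/-- For every `n ≥ 1` the `n`-cube has `min (5, ⌊n/2⌋ + 1)` pairwise edge-disjoint symmetric chain
decompositions; it has six of them for `10 ≤ n ≤ 15` and for every `n ≥ 20`. -/
theorem result :
    (∀ n : ℕ, 1 ≤ n → DisjointSCDs n (min 5 (n / 2 + 1))) ∧
    (∀ n : ℕ, (10 ≤ n ∧ n ≤ 15) ∨ 20 ≤ n → DisjointSCDs n 6) := by
  refine ⟨fun n hn => ?_, fun n hn => ?_⟩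
  · rcases Nat.lt_or_ge n 8 with h | h
    · exact DisjointSCDs.of_good (small n hn h)
    · have e : min 5 (n / 2 + 1) = 5 := by omega
      rw [e]
      exact DisjointSCDs.of_good
        (interval (by norm_num) base5 (n / 8) (by omega) n (by omega) (by omega))
  · rcases hn with h | h
    · exact DisjointSCDs.of_good (base6 n h.1 h.2)
    · exact DisjointSCDs.of_good
        (interval (by norm_num) base6 ((n + 14) / 15) (by omega) n (by omega) (by omega))

end Pool.Agent.Results.MP_0ccee8_co.FiveForAllDimensions
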