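import Pool.Agent.H54S.Interval
import Pool.Agent.H54S.Data12
import Pool.Agent.H54S.Data13
import Pool.Agent.H54S.Data14
import Pool.Agent.H54S.Data15

set_option autoImplicit false

namespace Pool.Agent.Results.MP_0ccee8_co.SevenDecompositions

open Pool.Agent.H54S

theorem base : ∀ m, 12 ≤ m → m ≤ 15 → Good (Fin m) 7 := by
  intro m h1 h2
  rcases (show m = 12 ∨ m = 13 ∨ m = 14 ∨ m = 15 by omega) with rfl | rfl | rfl | rfl
  · exact D12.good
  · exact D13.good
  · exact D14.good
  · exact D15.good

/-- For every `n ≥ 48`, and for every `n` between `12 k` and `15 k` with `k ≥ 1`, the `n`-cube has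
seven pairwise edge-disjoint symmetric chain decompositions. -/
theorem result :
    (∀ n : ℕ, 48 ≤ n → DisjointSCDs n 7) ∧
    (∀ k n : ℕ, 1 ≤ k → 12 * k ≤ n → n ≤ 15 * k → DisjointSCDs n 7) := by
  have key : ∀ k n : ℕ, 1 ≤ k → 12 * k ≤ n → n ≤ 15 * k → DisjointSCDs n 7 := by
    intro k n hk h1 h2
    exact DisjointSCDs.of_good (interval (by norm_num) base k hk n (by omega) (by omega))
  refine ⟨fun n hn => ?_, key⟩
  exact key ((n + 14) / 15) n (by omega) (by omega) (by omega)

end Pool.Agent.Results.MP_0ccee8_co.SevenDecompositions
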